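import Mathlib
import Pool.Agent.SQS.Main

set_option autoImplicit false

/-!
# Squares and Sidon sets

There is `c > 0` such that for all large `N`:
* every `A ⊆ {1, ..., N}` with at least `N ^ (1 - c / log log N)` elements has a sum `s` with at
  least `N ^ (c / log log N)` representations `s = a ^ 2 + b ^ 2`, `a, b ∈ A`;
* the squares `1, ..., N ^ 2` are not covered by fewer than `N ^ (c / log log N)` Sidon sets.
In particular the set of positive squares is not a finite union of Sidon sets.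
-/

namespace Pool.Agent.Results.MP_5a38b5_nt.SidonSquares

lemma rpow_pos_form (c : ℝ) (N : ℕ) (hN : 0 < N) :
    (N : ℝ) ^ (c / Real.log (Real.log N)) = Real.exp (c * (Real.log N / Real.log (Real.log N))) := by
  rw [Real.rpow_def_of_pos (by exact_mod_cast hN)]
  congr 1
  ring

lemma rpow_neg_form (c : ℝ) (N : ℕ) (hN : 0 < N) :
    (N : ℝ) ^ (1 - c / Real.log (Real.log N))
      = N * Real.exp (-(c * (Real.log N / Real.log (Real.log N)))) := by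
  have hN' : (0:ℝ) < N := by exact_mod_cast hN
  rw [Real.rpow_sub hN', Real.rpow_one, rpow_pos_form c N hN, Real.exp_neg, div_eq_mul_inv]

theorem result :
    (∃ c : ℝ, 0 < c ∧ ∃ N₀ : ℕ, ∀ N : ℕ, N₀ ≤ N →
      (∀ A : Finset ℕ, A ⊆ Finset.Icc 1 N →
        (N : ℝ) ^ (1 - c / Real.log (Real.log N)) ≤ (A.card : ℝ) →
        ∃ s : ℕ, (N : ℝ) ^ (c / Real.log (Real.log N))
          ≤ (((A ×ˢ A).filter (fun ab => ab.1 ^ 2 + ab.2 ^ 2 = s)).card : ℝ)) ∧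
      (∀ (k : ℕ) (X : Fin k → Set ℕ),
        (∀ i, ∀ a ∈ X i, ∀ b ∈ X i, ∀ c ∈ X i, ∀ d ∈ X i, a + b = c + d →
          (a = c ∧ b = d) ∨ (a = d ∧ b = c)) →
        (∀ n : ℕ, 1 ≤ n → n ≤ N → ∃ i, n ^ 2 ∈ X i) →
        (N : ℝ) ^ (c / Real.log (Real.log N)) ≤ (k : ℝ))) ∧
    (¬ ∃ (k : ℕ) (X : Fin k → Set ℕ),
        (∀ i, ∀ a ∈ X i, ∀ b ∈ X i, ∀ c ∈ X i, ∀ d ∈ X i, a + b = c + d →
          (a = c ∧ b = d) ∨ (a = d ∧ b = c)) ∧
        (⋃ i, X i) = {s : ℕ | ∃ n : ℕ, 1 ≤ n ∧ s = n ^ 2}) := by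
  refine ⟨⟨1 / 10000, by norm_num, ?_⟩, Pool.Agent.SQS.not_finite_union⟩
  obtain ⟨N₁, hN₁, h1⟩ := Pool.Agent.SQS.popular
  obtain ⟨N₂, h2⟩ := Pool.Agent.SQS.covering
  refine ⟨max N₁ N₂, fun N hN => ?_⟩
  have hN1 : N₁ ≤ N := (le_max_left _ _).trans hN
  have hN2 : N₂ ≤ N := (le_max_right _ _).trans hN
  have hpos : 0 < N := by omega
  rw [rpow_pos_form _ N hpos, rpow_neg_form _ N hpos]
  exact ⟨fun A hA hc => (h1 N hN1).2 A hA hc, fun k X hX hcov => h2 N hN2 k X hX hcov⟩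

end Pool.Agent.Results.MP_5a38b5_nt.SidonSquares
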